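import Pool.Agent.Y285.TB.Space

/-!
Translations on de Branges spaces: the counterexample can grow as slowly as one likes.

For every `ω` with `ω(r) / log r → ∞` there is an entire `E` with `|E(conj z)| < |E z|` in the
open upper half-plane, without real zeros, with `|E z| ≤ exp (ω |z|)` for all large `|z|` and with
`sup_t |E(t+x)/E(t)| < ∞` for every real `x`, such that the translation by `i` does not map the
de Branges space `H(E)` into itself.
-/

open Filter Topology MeasureTheory Complex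
open scoped ComplexConjugate ENNReal

namespace Pool.Agent.Results.MP_060e4f_an.SlowGrowth

open Pool.Agent.Y285.TB

/-- sparse positions adapted to `ω` -/
lemma exists_positions {ω : ℝ → ℝ} (hω : Tendsto (fun r => ω r / Real.log r) atTop atTop) :
    ∃ a : ℕ → ℝ, IsSp a ∧ 4 ≤ a 0 ∧
      ∀ n r, a n ≤ r → 18 * 4 ^ n * Real.log r ≤ ω r := by
  have h1 : ∀ n : ℕ, ∃ T : ℝ, ∀ r ≥ T, 18 * 4 ^ n ≤ ω r / Real.log r := fun n =>
    eventually_atTop.1 (hω.eventually_ge_atTop _)
  choose T hT using h1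
  let a : ℕ → ℝ := fun n => Nat.rec (max (T 0) 4) (fun n an => max (T (n + 1)) (4 * an)) n
  have ha0 : a 0 = max (T 0) 4 := rfl
  have has : ∀ n, a (n + 1) = max (T (n + 1)) (4 * a n) := fun n => rfl
  have h40 : 4 ≤ a 0 := by rw [ha0]; exact le_max_right _ _
  have hfour : ∀ n, 4 * a n ≤ a (n + 1) := fun n => by rw [has]; exact le_max_right _ _
  have hge : ∀ n, (4:ℝ) ^ (n + 1) ≤ a n := by
    intro n
    induction n with
    | zero => simpa using h40
    | succ n ih =>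
      have := hfour n
      rw [pow_succ]
      linarith
  have hTa : ∀ n, T n ≤ a n := by
    intro n
    cases n with
    | zero => rw [ha0]; exact le_max_left _ _
    | succ n => rw [has]; exact le_max_left _ _
  refine ⟨a, ⟨fun n => ?_, hfour⟩, h40, fun n r hr => ?_⟩
  · refine le_trans ?_ (hge n)
    exact pow_le_pow_right₀ (by norm_num) (Nat.le_succ n)
  · have h2 := hT n r ((hTa n).trans hr)
    have h3 : (4:ℝ) ≤ r := by
      refine le_trans ?_ ((hge n).trans hr)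
      rw [pow_succ]
      have : (1:ℝ) ≤ 4 ^ n := one_le_pow₀ (by norm_num)
      linarith
    have h4 : 0 < Real.log r := Real.log_pos (by linarith)
    rwa [le_div_iff₀ h4] at h2

lemma normSq_shift_top {a : ℕ → ℝ} (ha : IsSp a) :
    normSq (EE a) (fun ζ => FF a (ζ + I)) = ⊤ := by
  have h1 : ∀ n : ℕ, ∀ t ∈ Set.Icc (a n) (a n + 1),
      ENNReal.ofReal (1 / 50) ≤ ‖FF a ((t : ℂ) + I) / EE a (t : ℂ)‖ₑ ^ 2 := by
    intro n t ht
    rw [← ofReal_norm, ← ENNReal.ofReal_pow (norm_nonneg _)]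
    apply ENNReal.ofReal_le_ofReal
    have hE0 := EE_ne_zero ha ((t : ℂ) + I) (by simp)
    have hF : FF a ((t : ℂ) + I) = RR a ((t : ℂ) + I) * EE a ((t : ℂ) + I) := by
      rw [← quot_eq ha ((t : ℂ) + I) (by simp)]
      field_simp
    have h2 := g_up_ge ha n t ht.1 ht.2
    have h3 : 0 < ‖g a full (t : ℂ)‖ := norm_pos_iff.mpr (g_ne_zero ha adm_full _ (by simp))
    have h4 := RR_up n t ht.1 ht.2
    rw [hF, norm_div, norm_mul, div_pow, mul_pow]
    unfold EE
    rw [norm_mul, norm_mul, mul_pow, mul_pow]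
    have h5 : ‖(t : ℂ) + I‖ ^ 2 ≤ ‖(t : ℂ) + I + I‖ ^ 2 := by
      rw [← Complex.normSq_eq_norm_sq, ← Complex.normSq_eq_norm_sq, Complex.normSq_apply,
        Complex.normSq_apply]
      simp
      norm_num
    have h6 : 0 < ‖(t : ℂ) + I‖ ^ 2 := by
      rw [← Complex.normSq_eq_norm_sq, Complex.normSq_apply]
      simp
      nlinarith
    have h7 : ((1 / 2 : ℝ) ^ (n + 1) * (2 / 5)) ^ 2 ≤ ‖RR a ((t : ℂ) + I)‖ ^ 2 :=
      pow_le_pow_left₀ (by positivity) h4 2
    rw [le_div_iff₀ (by positivity)]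
    have h8 : ((1 / 2 : ℝ) ^ (n + 1) * (2 / 5)) ^ 2 * ((4:ℝ) ^ n / 2) = 1 / 50 := by
      have e4 : (4:ℝ) ^ n = 2 ^ n * 2 ^ n := by rw [← mul_pow]; norm_num
      have e5 : (1 / 2 : ℝ) ^ (n + 1) = 1 / (2 ^ n * 2) := by rw [one_div_pow, pow_succ]
      rw [e4, e5]
      field_simp
      norm_num
    calc 1 / 50 * (‖(t : ℂ) + I‖ ^ 2 * ‖g a full (t : ℂ)‖ ^ 2)
        = ((1 / 2 : ℝ) ^ (n + 1) * (2 / 5)) ^ 2 * (‖(t : ℂ) + I‖ ^ 2 *
          ((4:ℝ) ^ n / 2 * ‖g a full (t : ℂ)‖ ^ 2)) := by rw [← h8]; ring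
      _ ≤ ‖RR a ((t : ℂ) + I)‖ ^ 2 * (‖(t : ℂ) + I + I‖ ^ 2 * ‖g a full ((t : ℂ) + I)‖ ^ 2) := by
        gcongr
  unfold Pool.Agent.Y285.TB.normSq
  have hdisj : Pairwise (Function.onFun Disjoint (fun n : ℕ => Set.Icc (a n) (a n + 1))) := by
    have aux : ∀ i j : ℕ, i < j →
        Disjoint (Set.Icc (a i) (a i + 1)) (Set.Icc (a j) (a j + 1)) := by
      intro i j hij
      rw [Set.disjoint_left]
      intro t hi hj
      have h5 := ha.mono_lt hij
      have h6 := ha.one_le i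
      linarith [hi.2, hj.1]
    intro i j hij
    rcases lt_or_gt_of_ne hij with h | h
    · exact aux i j h
    · exact (aux j i h).symm
  rw [eq_top_iff]
  calc (⊤ : ℝ≥0∞) = ∑' n : ℕ, ENNReal.ofReal (1 / 50) :=
        (ENNReal.tsum_const_eq_top_of_ne_zero (by simp)).symm
    _ ≤ ∑' n : ℕ, ∫⁻ t in Set.Icc (a n) (a n + 1),
          ‖FF a ((t : ℂ) + I) / EE a (t : ℂ)‖ₑ ^ 2 := by
        apply ENNReal.tsum_le_tsum
        intro n
        calc ENNReal.ofReal (1 / 50) = ∫⁻ t in Set.Icc (a n) (a n + 1),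
              ENNReal.ofReal (1 / 50) := by
              rw [setLIntegral_const, Real.volume_Icc]
              simp
          _ ≤ _ := setLIntegral_mono' measurableSet_Icc (h1 n)
    _ = ∫⁻ t in ⋃ n : ℕ, Set.Icc (a n) (a n + 1),
          ‖FF a ((t : ℂ) + I) / EE a (t : ℂ)‖ₑ ^ 2 :=
        (lintegral_iUnion (fun n => measurableSet_Icc) hdisj _).symm
    _ ≤ _ := setLIntegral_le_lintegral _ _

/-- **Negative answer to Q1, with arbitrarily slow growth.** For every `ω` with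
`ω(r) / log r → ∞` there is an entire `E` with `|E(conj z)| < |E z|` in the open upper half-plane,
without real zeros, of finite exponential type and even with `|E z| ≤ exp (ω |z|)` for all large
`|z|`, with `sup_t |E(t+x)/E(t)| ≤ (1+|x|) exp (10 (2|x|+x²))` for every real `x`, and an element
`F` of the de Branges space `H(E)` whose translate `F(· + i)` is not in `H(E)`; in particular the
translation group does not act continuously on `H(E)`. -/
theorem result : ∀ ω : ℝ → ℝ, Tendsto (fun r => ω r / Real.log r) atTop atTop → ∃ E : ℂ → ℂ,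
    Differentiable ℂ E ∧
    (∀ z : ℂ, 0 < z.im → ‖E (conj z)‖ < ‖E z‖) ∧
    FiniteExponentialType E ∧
    (∃ R : ℝ, ∀ z : ℂ, R ≤ ‖z‖ → ‖E z‖ ≤ Real.exp (ω ‖z‖)) ∧
    (∀ t : ℝ, E t ≠ 0) ∧
    (∀ x t : ℝ, ‖E ((t + x : ℝ) : ℂ) / E (t : ℂ)‖ ≤ (1 + |x|) * Real.exp (10 * (2 * |x| + x ^ 2))) ∧
    (∃ F : ℂ → ℂ, InH E F ∧ ¬ InH E (fun ζ => F (ζ + I))) ∧
    ¬ TranslationsActContinuously E := by
  intro ω hω
  obtain ⟨a, ha, ha0, hag⟩ := exists_positions hω
  have hnot : ¬ InH (EE a) (fun ζ => FF a (ζ + I)) := by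
    intro h
    have h1 := h.2.1
    rw [normSq_shift_top ha] at h1
    exact lt_irrefl _ h1
  refine ⟨EE a, EE_differentiable ha, ?_, ?_, ?_, fun t => EE_ne_zero ha _ (by simp), ?_,
    ⟨FF a, FF_inH ha, hnot⟩, fun h => hnot (h.1 _ (FF_inH ha) I)⟩
  · intro z hz
    unfold EE
    rw [norm_mul, norm_mul]
    have h1 := g_conj_le ha adm_full z hz
    have h2 : 0 < ‖g a full z‖ := norm_pos_iff.mpr (g_ne_zero ha adm_full z hz.le)
    have h3 : ‖conj z + I‖ < ‖z + I‖ := by
      apply lt_of_pow_lt_pow_left₀ 2 (norm_nonneg _)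
      rw [← Complex.normSq_eq_norm_sq, ← Complex.normSq_eq_norm_sq, Complex.normSq_apply,
        Complex.normSq_apply]
      simp
      nlinarith
    calc ‖conj z + I‖ * ‖g a full (conj z)‖ ≤ ‖conj z + I‖ * ‖g a full z‖ :=
          mul_le_mul_of_nonneg_left h1 (norm_nonneg _)
      _ < ‖z + I‖ * ‖g a full z‖ := mul_lt_mul_of_pos_right h3 h2
  · refine ⟨1, 3, fun z => ?_⟩
    unfold EE
    rw [norm_mul]
    have h1 := g_growth ha adm_full z
    have h2 : ‖z + I‖ ≤ Real.exp ‖z‖ := by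
      refine (norm_add_le _ _).trans ?_
      rw [Complex.norm_I]
      exact Real.add_one_le_exp _
    calc ‖z + I‖ * ‖g a full z‖ ≤ Real.exp ‖z‖ * Real.exp (2 * ‖z‖) :=
          mul_le_mul h2 h1 (norm_nonneg _) (Real.exp_pos _).le
      _ = 1 * Real.exp (3 * ‖z‖) := by
          rw [← Real.exp_add, one_mul]
          congr 1
          ring
  · refine ⟨a 0, fun z hz => ?_⟩
    have hr4 : 4 ≤ ‖z‖ := ha0.trans hz
    -- the block
    obtain ⟨m, hm1, hm2⟩ : ∃ m, a m ≤ ‖z‖ ∧ ‖z‖ ≤ a (m + 1) := by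
      have hex : ∃ n, ‖z‖ < a n := by
        obtain ⟨n, hn⟩ := pow_unbounded_of_one_lt ‖z‖ (show (1:ℝ) < 4 by norm_num)
        exact ⟨n, hn.trans_le (ha.ge n)⟩
      classical
      set N := Nat.find hex with hN
      have hN1 : ‖z‖ < a N := Nat.find_spec hex
      have hN0 : N ≠ 0 := by
        intro h0
        rw [h0] at hN1
        linarith
      obtain ⟨m, hm⟩ := Nat.exists_eq_succ_of_ne_zero hN0
      refine ⟨m, ?_, ?_⟩
      · have := Nat.find_min hex (m := m) (by omega)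
        exact not_lt.1 this
      · rw [hm] at hN1
        exact hN1.le
    have h1 := g_slow ha adm_full m z hm2
    have h2 := hag m ‖z‖ hm1
    have hlog1 : 1 ≤ Real.log ‖z‖ := by
      rw [Real.le_log_iff_exp_le (by linarith)]
      have := Real.exp_one_lt_d9
      linarith
    have hlog2 : Real.log (1 + ‖z‖) ≤ 2 * Real.log ‖z‖ := by
      have h3 : Real.log (1 + ‖z‖) ≤ Real.log (‖z‖ ^ 2) :=
        Real.log_le_log (by linarith) (by nlinarith)
      rw [Real.log_pow] at h3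
      exact_mod_cast h3
    have h3 : ‖z + I‖ ≤ Real.exp (Real.log (1 + ‖z‖)) := by
      rw [Real.exp_log (by linarith)]
      refine (norm_add_le _ _).trans ?_
      rw [Complex.norm_I]; linarith
    have h4m : (1:ℝ) ≤ 4 ^ m := one_le_pow₀ (by norm_num)
    unfold EE
    rw [norm_mul]
    calc ‖z + I‖ * ‖g a full z‖ ≤ Real.exp (Real.log (1 + ‖z‖)) *
          Real.exp (2 * (4 ^ m * (Real.log (1 + ‖z‖) + 4))) :=
          mul_le_mul h3 h1 (norm_nonneg _) (Real.exp_pos _).le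
      _ = Real.exp (Real.log (1 + ‖z‖) + 2 * (4 ^ m * (Real.log (1 + ‖z‖) + 4))) := by
          rw [← Real.exp_add]
      _ ≤ Real.exp (ω ‖z‖) := by
          apply Real.exp_le_exp.2
          refine le_trans ?_ h2
          have h5 : 4 ^ m * (Real.log (1 + ‖z‖) + 4) ≤ 4 ^ m * (6 * Real.log ‖z‖) := by
            gcongr
            linarith
          have h6 : Real.log (1 + ‖z‖) ≤ 4 ^ m * (2 * Real.log ‖z‖) := by nlinarith
          nlinarith
  · intro x t
    have hE : 0 < ‖EE a (t : ℂ)‖ := norm_pos_iff.mpr (EE_ne_zero ha _ (by simp))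
    rw [norm_div, div_le_iff₀ hE]
    unfold EE
    rw [norm_mul, norm_mul]
    have h1 := g_shift ha t x
    have h1' : ‖g a full ((t + x : ℝ) : ℂ)‖ ≤
        Real.exp (10 * (2 * |x| + x ^ 2)) * ‖g a full (t : ℂ)‖ := by
      apply le_of_sq_le_sq _ (by positivity)
      rw [mul_pow, ← Real.exp_nat_mul]
      refine h1.trans (le_of_eq ?_)
      congr 2
      push_cast
      ring
    have h2 : ‖((t + x : ℝ) : ℂ) + I‖ ≤ (1 + |x|) * ‖(t : ℂ) + I‖ := by
      have h3 : ((t + x : ℝ) : ℂ) + I = ((t : ℂ) + I) + (x : ℂ) := by push_cast; ring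
      rw [h3]
      refine (norm_add_le _ _).trans ?_
      have h4 : ‖(x : ℂ)‖ = |x| := by simp
      rw [h4]
      have h5 := norm_add_I_ge (t : ℂ) (by simp)
      nlinarith [abs_nonneg x]
    calc ‖((t + x : ℝ) : ℂ) + I‖ * ‖g a full ((t + x : ℝ) : ℂ)‖
        ≤ ((1 + |x|) * ‖(t : ℂ) + I‖) *
          (Real.exp (10 * (2 * |x| + x ^ 2)) * ‖g a full (t : ℂ)‖) :=
          mul_le_mul h2 h1' (by positivity) (by positivity)
      _ = (1 + |x|) * Real.exp (10 * (2 * |x| + x ^ 2)) *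
          (‖(t : ℂ) + I‖ * ‖g a full (t : ℂ)‖) := by ring

end Pool.Agent.Results.MP_060e4f_an.SlowGrowth
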