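import Pool.Agent.Results.MP_060e4f_an.Main

/-!
# A de Branges space of order one half without non-real translations

Stronger form of `Main` (MP_060e4f_an, Q1).  The function `E` of the starting file satisfies
`|E z| ≤ exp (√(1+|z|) (3 log (1+|z|) + 8))`, so it is of order at most one half, far below finite
exponential type; the quotients `E(t+x)/E(t)` are bounded locally uniformly in `x`; and the space
`H(E)` is not invariant under the translation by any complex number which is not real.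
-/

set_option autoImplicit false

open Complex ComplexConjugate Filter Topology MeasureTheory Real
open scoped ENNReal

namespace Pool.Agent.Results.MP_060e4f_an.TypeZero

open Main

/-! ### Growth -/

lemma norm_blk_poly (n : ℕ) (z : ℂ) : ‖blk n z‖ ≤ (1 + ‖z‖) ^ (2 ^ n) := by
  unfold blk
  rw [norm_prod]
  calc ∏ k ∈ Finset.range (2 ^ n), ‖1 + -(z / root n k)‖
      ≤ ∏ k ∈ Finset.range (2 ^ n), (1 + ‖z‖) := by
        apply Finset.prod_le_prod
        · intro k _; positivity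
        · intro k _
          refine (norm_add_le _ _).trans ?_
          rw [norm_one, norm_neg, norm_div]
          have h1 : (1 : ℝ) ≤ ‖root n k‖ :=
            (one_le_pow₀ (by norm_num : (1 : ℝ) ≤ 4)).trans (root_norm_ge n k)
          have h2 : ‖z‖ / ‖root n k‖ ≤ ‖z‖ := div_le_self (norm_nonneg _) h1
          linarith
    _ = (1 + ‖z‖) ^ (2 ^ n) := by rw [Finset.prod_const, Finset.card_range]

lemma head_le (N : ℕ) (z : ℂ) : ∏ n ∈ Finset.range N, ‖blk n z‖ ≤ (1 + ‖z‖) ^ (2 ^ N) := by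
  have h1 : (1 : ℝ) ≤ 1 + ‖z‖ := by linarith [norm_nonneg z]
  induction N with
  | zero => simp
  | succ N ih =>
    rw [Finset.prod_range_succ]
    calc (∏ n ∈ Finset.range N, ‖blk n z‖) * ‖blk N z‖
        ≤ (1 + ‖z‖) ^ (2 ^ N) * (1 + ‖z‖) ^ (2 ^ N) :=
          mul_le_mul ih (norm_blk_poly N z) (norm_nonneg _) (by positivity)
      _ = (1 + ‖z‖) ^ (2 ^ (N + 1)) := by
          rw [← pow_add]
          congr 1
          rw [pow_succ]
          ring

lemma g_le (N : ℕ) (z : ℂ) :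
    ‖g z‖ ≤ (1 + ‖z‖) ^ (2 ^ N) * Real.exp (2 * ‖z‖ / 2 ^ N) := by
  refine le_of_tendsto (g_norm_tendsto z) (eventually_atTop.2 ⟨N, fun M hM => ?_⟩)
  obtain ⟨m, rfl⟩ := Nat.exists_eq_add_of_le hM
  rw [Finset.prod_range_add]
  refine mul_le_mul (head_le N z) ?_ (Finset.prod_nonneg fun _ _ => norm_nonneg _) (by positivity)
  calc ∏ j ∈ Finset.range m, ‖blk (N + j) z‖
      ≤ ∏ j ∈ Finset.range m, Real.exp (‖z‖ / 2 ^ (N + j)) := by
        apply Finset.prod_le_prod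
        · intro n _; positivity
        · intro n _; exact norm_blk_growth _ z
    _ = Real.exp (∑ j ∈ Finset.range m, ‖z‖ / 2 ^ (N + j)) := by rw [Real.exp_sum]
    _ ≤ Real.exp (2 * ‖z‖ / 2 ^ N) := by
        apply Real.exp_le_exp.mpr
        have h1 : ∑ j ∈ Finset.range m, ‖z‖ / 2 ^ (N + j) =
            ‖z‖ / 2 ^ N * ∑ j ∈ Finset.range m, (1 / 2 : ℝ) ^ j := by
          rw [Finset.mul_sum]
          apply Finset.sum_congr rfl
          intro n _
          rw [pow_add, one_div, inv_pow]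
          field_simp
        rw [h1]
        have h2 := geom_half_le m
        calc ‖z‖ / 2 ^ N * ∑ j ∈ Finset.range m, (1 / 2 : ℝ) ^ j ≤ ‖z‖ / 2 ^ N * 2 :=
              mul_le_mul_of_nonneg_left h2 (by positivity)
          _ = 2 * ‖z‖ / 2 ^ N := by ring

/-- `g` is of order at most one half. -/
lemma g_order (z : ℂ) :
    ‖g z‖ ≤ Real.exp (√(1 + ‖z‖) * (Real.log (1 + ‖z‖) + 4)) := by
  set r := ‖z‖ with hr
  have hr0 : 0 ≤ r := norm_nonneg z
  set s := √(1 + r) with hs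
  have hs1 : 1 ≤ s := by
    rw [hs]
    exact Real.one_le_sqrt.2 (by linarith)
  have hs2 : s ^ 2 = 1 + r := Real.sq_sqrt (by linarith)
  obtain ⟨N, hN1, hN2⟩ := exists_nat_pow_near hs1 (by norm_num : (1 : ℝ) < 2)
  have hlog : 0 ≤ Real.log (1 + r) := Real.log_nonneg (by linarith)
  have h1 : (1 + r) ^ (2 ^ N) ≤ Real.exp (s * Real.log (1 + r)) := by
    have h2 : (1 + r) ^ (2 ^ N) = Real.exp (((2 ^ N : ℕ) : ℝ) * Real.log (1 + r)) := by
      rw [Real.exp_nat_mul, Real.exp_log (by linarith)]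
    rw [h2]
    apply Real.exp_le_exp.mpr
    apply mul_le_mul_of_nonneg_right _ hlog
    push_cast
    exact hN1
  have h3 : 2 * r / 2 ^ N ≤ 4 * s := by
    rw [div_le_iff₀ (by positivity)]
    rw [pow_succ] at hN2
    nlinarith
  calc ‖g z‖ ≤ (1 + r) ^ (2 ^ N) * Real.exp (2 * r / 2 ^ N) := g_le N z
    _ ≤ Real.exp (s * Real.log (1 + r)) * Real.exp (4 * s) :=
        mul_le_mul h1 (Real.exp_le_exp.mpr h3) (Real.exp_pos _).le (Real.exp_pos _).le
    _ = Real.exp (s * (Real.log (1 + r) + 4)) := by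
        rw [← Real.exp_add]
        congr 1
        ring

/-- `E` is of order at most one half. -/
theorem E0_order (z : ℂ) :
    ‖E0 z‖ ≤ Real.exp (√(1 + ‖z‖) * (3 * Real.log (1 + ‖z‖) + 8)) := by
  have hr0 : 0 ≤ ‖z‖ := norm_nonneg z
  have hs1 : 1 ≤ √(1 + ‖z‖) := Real.one_le_sqrt.2 (by linarith)
  have hlog : 0 ≤ Real.log (1 + ‖z‖) := Real.log_nonneg (by linarith)
  have h1 : ‖z + I‖ ≤ Real.exp (√(1 + ‖z‖) * Real.log (1 + ‖z‖)) := by
    have h2 : ‖z + I‖ ≤ 1 + ‖z‖ := by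
      refine (norm_add_le _ _).trans ?_
      rw [Complex.norm_I, add_comm]
    refine h2.trans ?_
    calc 1 + ‖z‖ = Real.exp (Real.log (1 + ‖z‖)) := (Real.exp_log (by linarith)).symm
      _ ≤ _ := by
        apply Real.exp_le_exp.mpr
        nlinarith
  unfold E0
  rw [norm_mul, norm_pow]
  calc ‖z + I‖ * ‖g z‖ ^ 2
      ≤ Real.exp (√(1 + ‖z‖) * Real.log (1 + ‖z‖)) *
          Real.exp (√(1 + ‖z‖) * (Real.log (1 + ‖z‖) + 4)) ^ 2 :=
        mul_le_mul h1 (pow_le_pow_left₀ (norm_nonneg _) (g_order z) 2) (by positivity)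
          (Real.exp_pos _).le
    _ = Real.exp (√(1 + ‖z‖) * (3 * Real.log (1 + ‖z‖) + 8)) := by
        rw [← Real.exp_nat_mul, ← Real.exp_add]
        congr 1
        push_cast
        ring

/-! ### Real translations -/

theorem E0_shift (x t : ℝ) : ‖E0 ((t + x : ℝ) : ℂ)‖ ≤
    (1 + |x|) * Real.exp (20 * (2 * |x| + x ^ 2)) * ‖E0 (t : ℂ)‖ := by
  unfold E0
  rw [norm_mul, norm_mul, norm_pow, norm_pow]
  have h1 := g_shift t x
  have h2 : ‖((t + x : ℝ) : ℂ) + I‖ ≤ (1 + |x|) * ‖(t : ℂ) + I‖ := by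
    have h3 : ((t + x : ℝ) : ℂ) + I = ((t : ℂ) + I) + (x : ℂ) := by push_cast; ring
    rw [h3]
    refine (norm_add_le _ _).trans ?_
    have h4 : ‖(x : ℂ)‖ = |x| := by simp
    rw [h4]
    have h5 := norm_add_I_ge (t : ℂ) (by simp)
    nlinarith [abs_nonneg x]
  calc ‖((t + x : ℝ) : ℂ) + I‖ * ‖g ((t + x : ℝ) : ℂ)‖ ^ 2
      ≤ ((1 + |x|) * ‖(t : ℂ) + I‖) * (Real.exp (20 * (2 * |x| + x ^ 2)) * ‖g (t : ℂ)‖ ^ 2) := by
        apply mul_le_mul h2 h1 (by positivity) (by positivity)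
    _ = (1 + |x|) * Real.exp (20 * (2 * |x| + x ^ 2)) * (‖(t : ℂ) + I‖ * ‖g (t : ℂ)‖ ^ 2) := by
        ring

/-! ### Non-real translations -/

theorem normSq_top (a y : ℝ) (hy : 1 ≤ y) :
    normSq E0 (fun ζ => g (ζ + (a + y * I)) ^ 2) = ⊤ := by
  set C : ℝ := (1 + |(-a)|) * Real.exp (20 * (2 * |(-a)| + (-a) ^ 2)) with hC
  have hC0 : 0 < C := by positivity
  have h1 : ∀ t : ℝ, ENNReal.ofReal (C⁻¹ ^ 2) * ‖g ((t : ℂ) + I) ^ 2 / E0 (t : ℂ)‖ₑ ^ 2 ≤
      ‖g (((t - a : ℝ) : ℂ) + (a + y * I)) ^ 2 / E0 ((t - a : ℝ) : ℂ)‖ₑ ^ 2 := by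
    intro t
    have e1 : (((t - a : ℝ) : ℂ) + (a + y * I)) = (t : ℂ) + y * I := by push_cast; ring
    rw [e1, ← ofReal_norm, ← ofReal_norm, ← ENNReal.ofReal_pow (norm_nonneg _),
      ← ENNReal.ofReal_pow (norm_nonneg _), ← ENNReal.ofReal_mul (by positivity)]
    apply ENNReal.ofReal_le_ofReal
    rw [← mul_pow]
    apply pow_le_pow_left₀ (by positivity)
    rw [norm_div, norm_div, norm_pow, norm_pow]
    have hE : 0 < ‖E0 (t : ℂ)‖ := norm_pos_iff.mpr (E0_ne_zero _ (by simp))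
    have hE' : 0 < ‖E0 ((t - a : ℝ) : ℂ)‖ := norm_pos_iff.mpr (E0_ne_zero _ (by simp))
    have hg : ‖g ((t : ℂ) + I)‖ ≤ ‖g ((t : ℂ) + y * I)‖ := by
      apply g_norm_le_of
      intro n k
      apply dist_root_le_of
      · simp
      · have hk : (0 : ℝ) ≤ k := Nat.cast_nonneg k
        have e2 : ((t : ℂ) + I).im = 1 := by simp
        have e3 : ((t : ℂ) + y * I).im = y := by simp
        rw [e2, e3, abs_of_pos (by linarith), abs_of_pos (by linarith)]
        linarith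
    have hsh := E0_shift (-a) t
    rw [← hC] at hsh
    have e4 : t + -a = t - a := by ring
    rw [e4] at hsh
    rw [le_div_iff₀ hE']
    calc C⁻¹ * (‖g ((t : ℂ) + I)‖ ^ 2 / ‖E0 (t : ℂ)‖) * ‖E0 ((t - a : ℝ) : ℂ)‖
        ≤ C⁻¹ * (‖g ((t : ℂ) + I)‖ ^ 2 / ‖E0 (t : ℂ)‖) * (C * ‖E0 (t : ℂ)‖) :=
          mul_le_mul_of_nonneg_left hsh (by positivity)
      _ = ‖g ((t : ℂ) + I)‖ ^ 2 := by field_simp
      _ ≤ ‖g ((t : ℂ) + y * I)‖ ^ 2 := pow_le_pow_left₀ (norm_nonneg _) hg 2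
  have h2 : normSq E0 (fun ζ => g (ζ + (a + y * I)) ^ 2) =
      ∫⁻ t : ℝ, ‖g (((t - a : ℝ) : ℂ) + (a + y * I)) ^ 2 / E0 ((t - a : ℝ) : ℂ)‖ₑ ^ 2 := by
    unfold Main.normSq
    exact (lintegral_sub_right_eq_self
      (fun t : ℝ => ‖g ((t : ℂ) + (a + y * I)) ^ 2 / E0 (t : ℂ)‖ₑ ^ 2) a).symm
  rw [h2, eq_top_iff]
  calc (⊤ : ℝ≥0∞) = ENNReal.ofReal (C⁻¹ ^ 2) * normSq E0 (fun ζ => g (ζ + I) ^ 2) := by
        rw [normSq_shift_top, ENNReal.mul_top]
        rw [Ne, ENNReal.ofReal_eq_zero, not_le]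
        positivity
    _ = ∫⁻ t : ℝ, ENNReal.ofReal (C⁻¹ ^ 2) * ‖g ((t : ℂ) + I) ^ 2 / E0 (t : ℂ)‖ₑ ^ 2 := by
        unfold Main.normSq
        rw [lintegral_const_mul' _ _ ENNReal.ofReal_ne_top]
    _ ≤ _ := lintegral_mono h1

/-- `H(E)` is invariant under the translation by `w`. -/
def Invariant (E : ℂ → ℂ) (w : ℂ) : Prop :=
  ∀ F : ℂ → ℂ, InH E F → InH E (fun ζ => F (ζ + w))

lemma star_star (F : ℂ → ℂ) : star' (star' F) = F := by
  funext z
  simp [star']

lemma inH_star {E F : ℂ → ℂ} (h : InH E F) : InH E (star' F) := by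
  obtain ⟨h1, h2, h3, h4, h5, h6⟩ := h
  refine ⟨star_differentiable F h1, ?_, h5, h6, ?_, ?_⟩
  · have : normSq E (star' F) = normSq E F := by
      unfold Main.normSq
      refine lintegral_congr fun t => ?_
      have h7 : ‖star' F t / E t‖ₑ = ‖F t / E t‖ₑ := by
        rw [← ofReal_norm, ← ofReal_norm, norm_div, norm_div]
        unfold star'
        rw [Complex.norm_conj, Complex.conj_ofReal]
      rw [h7]
    rw [this]
    exact h2
  · rw [star_star]
    exact h3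
  · rw [star_star]
    exact h4

lemma Invariant.conj {E : ℂ → ℂ} {w : ℂ} (h : Invariant E w) : Invariant E (conj w) := by
  intro F hF
  have h1 := inH_star (h _ (inH_star hF))
  have h2 : star' (fun ζ => star' F (ζ + w)) = fun ζ => F (ζ + conj w) := by
    funext ζ
    simp [star']
  rwa [h2] at h1

lemma Invariant.iter {E : ℂ → ℂ} {w : ℂ} (h : Invariant E w) (n : ℕ) :
    Invariant E (n * w) := by
  induction n with
  | zero =>
    intro F hF
    simpa using hF
  | succ n ih =>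
    intro F hF
    have h1 := ih _ (h F hF)
    have h2 : (fun ζ => (fun ζ => F (ζ + w)) (ζ + n * w)) =
        fun ζ => F (ζ + ((n + 1 : ℕ) : ℂ) * w) := by
      funext ζ
      simp only
      congr 1
      push_cast
      ring
    rwa [h2] at h1

theorem not_invariant_pos {w : ℂ} (hw : 0 < w.im) : ¬ Invariant E0 w := by
  intro h
  obtain ⟨n, hn⟩ := exists_nat_gt (1 / w.im)
  have hn1 : 1 ≤ n * w.im := by
    rw [div_lt_iff₀ hw] at hn
    exact hn.le
  have h1 := ((h.iter n) _ g_sq_inH).2.1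
  have h2 : (fun ζ : ℂ => (fun z => g z ^ 2) (ζ + n * w)) =
      fun ζ => g (ζ + (((n * w.re : ℝ) : ℂ) + ((n * w.im : ℝ) : ℂ) * I)) ^ 2 := by
    funext ζ
    simp only
    congr 2
    have h3 : (n : ℂ) * w = ((n * w.re : ℝ) : ℂ) + ((n * w.im : ℝ) : ℂ) * I := by
      apply Complex.ext <;> simp
    rw [h3]
  rw [h2, normSq_top _ _ hn1] at h1
  exact lt_irrefl _ h1

theorem not_invariant {w : ℂ} (hw : w.im ≠ 0) : ¬ Invariant E0 w := by
  rcases lt_or_gt_of_ne hw with h | h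
  · intro hi
    exact not_invariant_pos (w := conj w) (by rw [Complex.conj_im]; linarith) hi.conj
  · exact not_invariant_pos h

/-- **Main theorem.** There is an entire `E` without real zeros, with `|E(conj z)| < |E z|` in the
open upper half-plane, of order at most one half, with
`|E(t+x)/E(t)| ≤ (1+|x|) exp (20 (2|x| + x²))` for all real `t`, `x`, such that for no complex
number `w` which is not real the de Branges space `H(E)` is invariant under the translation by `w`;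
in particular the translation group does not act continuously on `H(E)`. -/
theorem result : ∃ E : ℂ → ℂ,
    Differentiable ℂ E ∧
    (∀ z : ℂ, 0 < z.im → ‖E (conj z)‖ < ‖E z‖) ∧
    (∀ t : ℝ, E t ≠ 0) ∧
    (∀ z : ℂ, ‖E z‖ ≤ Real.exp (√(1 + ‖z‖) * (3 * Real.log (1 + ‖z‖) + 8))) ∧
    (∀ x t : ℝ, ‖E ((t + x : ℝ) : ℂ) / E (t : ℂ)‖ ≤
      (1 + |x|) * Real.exp (20 * (2 * |x| + x ^ 2))) ∧
    (∀ w : ℂ, w.im ≠ 0 → ∃ F : ℂ → ℂ, InH E F ∧ ¬ InH E (fun ζ => F (ζ + w))) ∧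
    ¬ TranslationsActContinuously E := by
  refine ⟨E0, E0_differentiable, ?_, fun t => E0_ne_zero _ (by simp), E0_order, ?_, ?_, ?_⟩
  · intro z hz
    unfold E0
    rw [norm_mul, norm_mul, norm_pow, norm_pow]
    have h1 := g_conj_le z hz
    have h2 : 0 < ‖g z‖ := norm_pos_iff.mpr (g_ne_zero z hz.le)
    have h3 : ‖conj z + I‖ < ‖z + I‖ := by
      apply lt_of_pow_lt_pow_left₀ 2 (norm_nonneg _)
      rw [← Complex.normSq_eq_norm_sq, ← Complex.normSq_eq_norm_sq, Complex.normSq_apply,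
        Complex.normSq_apply]
      simp
      nlinarith
    calc ‖conj z + I‖ * ‖g (conj z)‖ ^ 2 ≤ ‖conj z + I‖ * ‖g z‖ ^ 2 :=
          mul_le_mul_of_nonneg_left (pow_le_pow_left₀ (norm_nonneg _) h1 2) (norm_nonneg _)
      _ < ‖z + I‖ * ‖g z‖ ^ 2 := mul_lt_mul_of_pos_right h3 (by positivity)
  · intro x t
    have hE : 0 < ‖E0 (t : ℂ)‖ := norm_pos_iff.mpr (E0_ne_zero _ (by simp))
    rw [norm_div, div_le_iff₀ hE]
    exact E0_shift x t
  · intro w hw
    by_contra hcon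
    push Not at hcon
    exact not_invariant hw hcon
  · intro h
    exact not_invariant (w := I) (by simp) fun F hF => h.1 F hF I

end Pool.Agent.Results.MP_060e4f_an.TypeZero
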